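import Pool.Agent.W813.NC.Stm

/-!
# NC-PEV: the one-parameter group preserves the even (odd) idempotents
-/

set_option linter.unusedSectionVars false

open CategoryTheory Limits MonoidalCategory

namespace Pool.Agent.W19.NC

open Pool.Agent.W492.MT (tpow tr)
open Pool.Agent.W492.KC (swp gins gsym EvenFin OddFin)
open Pool.Agent.W813.NC

universe v u v' u'

section
variable {C : Type u} [Category.{v} C] [Preadditive C] [MonoidalCategory C] [SymmetricCategory C]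
  {D : Type u'} [Category.{v'} D] [Preadditive D] [MonoidalCategory D] [SymmetricCategory D]
  [MonoidalPreadditive D] (F : Type) [Field F] [Linear F D] [MonoidalLinear F D]
  (Φ : C ⥤ D)

/-- the tensor power of `q`, seen as an endomorphism of `Φ (X^{⊗ n})`. -/
def WW [Φ.Monoidal] {X : C} (q : Φ.obj X ⟶ Φ.obj X) (n : ℕ) :
    Φ.obj (tpow X n) ⟶ Φ.obj (tpow X n) :=
  (kap Φ X n).inv ≫ pwm q n ≫ (kap Φ X n).hom

theorem WW_succ [Φ.Monoidal] {X : C} (q : Φ.obj X ⟶ Φ.obj X) (n : ℕ) :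
    WW Φ q (n + 1) = Functor.OplaxMonoidal.δ Φ X (tpow X n) ≫ (q ⊗ₘ WW Φ q n) ≫
      Functor.LaxMonoidal.μ Φ X (tpow X n) := by
  have h1 : WW Φ q (n + 1) = (Functor.OplaxMonoidal.δ Φ X (tpow X n) ≫
      (Φ.obj X ◁ (kap Φ X n).inv)) ≫ (q ⊗ₘ pwm q n) ≫ ((Φ.obj X ◁ (kap Φ X n).hom) ≫
      Functor.LaxMonoidal.μ Φ X (tpow X n)) := rfl
  rw [h1]
  unfold WW
  simp only [Category.assoc]
  congr 1
  rw [← Category.assoc, ← Category.assoc, ← Category.assoc]
  congr 1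
  rw [← id_tensorHom, ← id_tensorHom, tensorHom_comp_tensorHom, tensorHom_comp_tensorHom,
    Category.id_comp, Category.comp_id, Category.assoc]

theorem pev [Φ.Braided] [Φ.Additive]
    (H : ∀ X Y : C, ℤ → Submodule F (Φ.obj X ⟶ Φ.obj Y)) (h : S_FUN Φ) : S_PEV F Φ H := by
  intro hH t ψ ht hψ hcomp htens X p ε n hp
  have hmap : ∀ (X Y : C) (g : X ⟶ Y), ψ X Y (Φ.map g) = Φ.map g := by
    intro X Y g
    rw [hψ X Y 0 _ (hH.map_mem g), zpow_zero, one_smul]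
  have hA : ∀ m : ℕ, ψ (tpow X m) (tpow X m) (WW Φ p m) = WW Φ (ψ X X p) m := by
    intro m
    induction m with
    | zero =>
      have e : ∀ q : Φ.obj X ⟶ Φ.obj X, WW Φ q 0 = Φ.map (𝟙 (𝟙_ C)) := by
        intro q
        have : WW Φ q 0 = (kap Φ X 0).inv ≫ 𝟙 _ ≫ (kap Φ X 0).hom := rfl
        rw [this, Category.id_comp, Iso.inv_hom_id, Φ.map_id]
        rfl
      rw [e, e]
      exact hmap (𝟙_ C) (𝟙_ C) _
    | succ m ih =>
      rw [WW_succ, WW_succ, ← ih]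
      exact htens X X (tpow X m) (tpow X m) p (WW Φ p m)
  have h1 : ∀ q : Φ.obj X ⟶ Φ.obj X, WW Φ q n ≫ Φ.map (gsym ε X n) =
      (kap Φ X n).inv ≫ (pwm q n ≫ gsym ε (Φ.obj X) n) ≫ (kap Φ X n).hom := by
    intro q
    unfold WW
    simp only [Category.assoc]
    rw [h X ε n]
  have h2 : WW Φ p n ≫ Φ.map (gsym ε X n) = 0 := by
    rw [h1, hp]
    simp
  have h3 := congrArg (ψ (tpow X n) (tpow X n)) h2
  rw [hcomp, hmap, hA, map_zero, h1] at h3
  have h4 : (kap Φ X n).hom ≫ ((kap Φ X n).inv ≫ (pwm (ψ X X p) n ≫ gsym ε (Φ.obj X) n) ≫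
      (kap Φ X n).hom) ≫ (kap Φ X n).inv = 0 := by
    rw [h3]
    simp
  simpa using h4

end

end Pool.Agent.W19.NC
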